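import Pool.Agent.Y817.WK.Stm

/-!
# The differential equations (job WK-PDE)
-/

set_option autoImplicit false

namespace Pool.Agent.Q213.WK.PDE

open Pool.Agent.Y817.WK MvPolynomial

theorem coeff_euler {V K : Type} [Field K] (i : V) (f : MvPolynomial V K) (m : V →₀ ℕ) :
    coeff m (euler i f) = (m i : K) * coeff m f := by
  classical
  induction f using MvPolynomial.induction_on' with
  | monomial s a =>
    unfold euler
    rw [pderiv_monomial, X, monomial_mul, coeff_monomial, coeff_monomial, one_mul]
    by_cases hs : s i = 0
    · by_cases h : s = m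
      · subst h
        simp [hs]
      · simp [hs, h]
    · have h1 : Finsupp.single i 1 + (s - Finsupp.single i 1) = s := by
        rw [add_tsub_cancel_of_le]
        rw [Finsupp.single_le_iff]
        omega
      rw [h1]
      split_ifs with h
      · subst h
        ring
      · simp
  | add p q hp hq =>
    have h : euler i (p + q) = euler i p + euler i q := by
      unfold euler
      rw [map_add, mul_add]
    rw [h, coeff_add, coeff_add, hp, hq, mul_add]

theorem coeff_zsmul {V K : Type} [Field K] (z : ℤ) (f : MvPolynomial V K) (m : V →₀ ℕ) :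
    coeff m (z • f) = (z : K) * coeff m f := by
  rw [coeff_smul, zsmul_eq_mul]

/-- WK-PDE. -/
theorem t : StmPde := by
  intro K _ _ V ι _ _ _ n Q c f g h h1 h2 h3
  classical
  -- every monomial of `f` solves the system
  have key : ∀ m : V →₀ ℕ, coeff m f ≠ 0 → ∀ s, (Q s).val (fun v => ((m v : ℕ) : ℤ)) = 0 := by
    intro m hm s
    have h4 := congrArg (coeff m) (h3 s)
    rw [coeff_add, coeff_zsmul, coeff_sum, coeff_zero] at h4
    have h5 : ∀ k, coeff m ((Q s).B k • g k + ∑ i, (Q s).A i k • euler i (g k)) =
        (((Q s).B k : K) * (m k : K) + ∑ i, ((Q s).A i k : K) * (m i : K) * (m k : K)) *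
          coeff m f := by
      intro k
      rw [coeff_add, coeff_zsmul, coeff_sum, h2 k, coeff_euler, add_mul, Finset.sum_mul]
      congr 1
      · ring
      · refine Finset.sum_congr rfl fun i _ => ?_
        rw [coeff_zsmul, coeff_euler, coeff_euler]
        ring
    rw [Finset.sum_congr rfl fun k _ => h5 k, ← Finset.sum_mul, ← add_mul] at h4
    have h6 := (mul_eq_zero.1 h4).resolve_right hm
    have h7 : (((Q s).val (fun v => ((m v : ℕ) : ℤ)) : ℤ) : K) = 0 := by
      rw [← h6]
      unfold Quad.val
      push_cast
      rw [Finset.sum_add_distrib, Finset.sum_comm]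
      ring
    exact_mod_cast h7
  -- the substitution
  let φ : MvPolynomial V K →ₐ[K] Polynomial K :=
    aeval fun i => if i = n then Polynomial.X else 1
  have hφ : φ f = Polynomial.X ^ c := by
    have h4 := congrArg φ h1
    rw [map_add, map_sum, map_pow] at h4
    have h5 : ∀ i ∈ (Finset.univ : Finset V), φ (if i = n then 0 else (1 - X i) * h i) = 0 := by
      intro i _
      split_ifs with hi
      · simp
      · simp [φ, hi]
    rw [Finset.sum_eq_zero h5, add_zero] at h4
    rw [h4]
    simp [φ]
  have hsum : φ f = ∑ m ∈ f.support, Polynomial.C (coeff m f) * Polynomial.X ^ (m n) := by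
    conv_lhs => rw [f.as_sum]
    rw [map_sum]
    refine Finset.sum_congr rfl fun m _ => ?_
    rw [show φ (monomial m (coeff m f)) = aeval _ (monomial m (coeff m f)) from rfl, aeval_monomial]
    congr 1
    rw [Finsupp.prod_fintype _ _ (fun i => pow_zero _)]
    rw [Finset.prod_eq_single n]
    · simp
    · intro i _ hi
      simp [hi]
    · intro hn
      exact absurd (Finset.mem_univ n) hn
  have hex : ∃ m ∈ f.support, m n = c := by
    by_contra hne
    push Not at hne
    have h4 : (φ f).coeff c = 0 := by
      rw [hsum, Polynomial.finsetSum_coeff]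
      refine Finset.sum_eq_zero fun m hm => ?_
      rw [Polynomial.coeff_C_mul_X_pow, if_neg (fun h => hne m hm h.symm)]
    rw [hφ, Polynomial.coeff_X_pow] at h4
    simp at h4
  obtain ⟨m, hm, hmc⟩ := hex
  exact ⟨fun v => m v, hmc, key m (mem_support_iff.1 hm)⟩

end Pool.Agent.Q213.WK.PDE
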